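import Pool.Agent.Helper47_Distal.Main

/-!
# Adding a finite set to an interpolation set for distal sequences (full positive answer)

If `E` is an interpolation set for distal sequences and `F` is finite, then `E ∪ F` is an
interpolation set for distal sequences. The definitions `IsDistalMap`, `IsDistalSeq` and
`IsInterpolationSet` are in `Pool.Agent.Helper47_Distal.Defs`.
-/

namespace Pool.Agent.Results.MP_009caa_an.Full

open Pool.Agent.Helper47_Distal

/-- If `E` is an interpolation set for distal sequences and `F` is a finite set of natural numbers,
then `E ∪ F` is an interpolation set for distal sequences. -/
theorem result (E F : Set ℕ) (hE : IsInterpolationSet E) (hF : F.Finite) :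
    IsInterpolationSet (E ∪ F) :=
  Pool.Agent.Helper47_Distal.main hE hF

end Pool.Agent.Results.MP_009caa_an.Full
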